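import Mathlib

namespace Pool.Agent.Results.MP_c4e411_nt.N11

/-- The `i`-th elementary symmetric polynomial of the entries of `x`. -/
def sigma {n : ℕ} (i : ℕ) (x : Fin n → ℕ) : ℕ :=
  ∑ t ∈ Finset.powersetCard i (Finset.univ : Finset (Fin n)), ∏ j ∈ t, x j

/-- The conjectured bound for `m`. -/
def boundM (n : ℚ) : ℚ := (3021 * n ^ 6 - 77575 * n ^ 5 + 920361 * n ^ 4 - 6235705 * n ^ 3 +
  24764202 * n ^ 2 - 53664304 * n + 48986640) / 12

/-- The conjectured bound for the largest entry. -/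
def boundX (n : ℚ) : ℚ := (27 * n ^ 4 - 190 * n ^ 3 + 471 * n ^ 2 - 500 * n + 216) / 12

/-- The counterexample. -/
def x₀ : Fin 11 → ℕ := ![1, 1, 1, 1, 1, 1, 1, 2, 10, 126, 16177]

lemma s3 : sigma 3 x₀ = 40766040 := by decide +kernel

lemma s11 : sigma 11 x₀ = 40766040 := by decide +kernel

lemma mono : Monotone x₀ := by
  rw [Fin.monotone_iff_le_succ]; decide

lemma pos : ∀ i, 0 < x₀ i := by decide

theorem result :
    ((∀ i, 0 < x₀ i) ∧ Monotone x₀ ∧ sigma 3 x₀ = sigma 11 x₀ ∧ boundM 11 < sigma 3 x₀) ∧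
    ¬ ∀ (n : ℕ) (x : Fin n → ℕ), 4 ≤ n → (∀ i, 0 < x i) → Monotone x → sigma 3 x = sigma n x →
      (sigma 3 x : ℚ) ≤ boundM n ∧ ∀ i, (x i : ℚ) ≤ boundX n := by
  have h : boundM 11 < sigma 3 x₀ := by rw [s3]; norm_num [boundM]
  refine ⟨⟨pos, mono, s3.trans s11.symm, h⟩, fun H => ?_⟩
  have := (H 11 x₀ (by norm_num) pos mono (s3.trans s11.symm)).1
  push_cast at this
  linarith

end Pool.Agent.Results.MP_c4e411_nt.N11
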